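import Pool.Agent.W537.RangeA
import Pool.Agent.H914R2.Core4
import Pool.Agent.H914R2.KLef

/-!
# From the power of the lowering operator to the inverses of the Lefschetz isomorphisms
-/

set_option autoImplicit false

open Polynomial Finset

namespace Pool.Agent.Q82.DL

open Pool.Agent.H914 Pool.Agent.H447 Pool.Agent.W537

variable {K : Type*} [Field K] [CharZero K] {V : Type*} [AddCommGroup V] [Module K V]
variable {gr : ℕ → Submodule K V} {n : ℕ} {L f : Module.End K V}

/-- The lowering operator on the strings. -/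
def Val (gr : ℕ → Submodule K V) (n : ℕ) (L f : Module.End K V) : Prop :=
  ∀ i ≤ n, ∀ a ∈ gr i, (L ^ (n - i + 1)) a = 0 → ∀ j ≤ n - i,
    f ((L ^ j) a) = ((j : K) * (((n - i : ℕ) : K) - j + 1)) • (L ^ (j - 1)) a

/-- The constant of `f ^ s` on `L ^ (k + s)` in a string of length `m`. -/
def gam (m k s : ℕ) : ℚ := ∏ t ∈ range s, (((k + t + 1 : ℕ) : ℚ) * ((m - (k + t) : ℕ) : ℚ))

lemma gam_pos {m k s : ℕ} (h : k + s ≤ m) : 0 < gam m k s := by
  apply prod_pos
  intro t ht
  rw [mem_range] at ht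
  have h1 : 0 < m - (k + t) := by omega
  have h2 : (0 : ℚ) < ((m - (k + t) : ℕ) : ℚ) := by exact_mod_cast h1
  positivity

lemma f_pow (hf : Val gr n L f) {i : ℕ} (hi : i ≤ n) {a : V} (ha : a ∈ gr i)
    (hp : (L ^ (n - i + 1)) a = 0) {k : ℕ} : ∀ s, k + s ≤ n - i →
      (f ^ s) ((L ^ (k + s)) a) = (gam (n - i) k s : K) • (L ^ k) a := by
  intro s
  induction s with
  | zero => intro _; simp [gam]
  | succ s ih =>
    intro hs
    rw [pow_succ, Module.End.mul_apply, hf i hi a ha hp _ hs, map_smul,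
      show k + (s + 1) - 1 = k + s by omega, ih (by omega), smul_smul]
    congr 1
    rw [gam, gam, prod_range_succ]
    push_cast [Nat.cast_sub (show k + s ≤ n - i by omega)]
    ring

lemma f_pow_zero (hf : Val gr n L f) {i : ℕ} (hi : i ≤ n) {a : V} (ha : a ∈ gr i)
    (hp : (L ^ (n - i + 1)) a = 0) {k s : ℕ} (hk : k < s) (hk2 : k ≤ n - i) :
    (f ^ s) ((L ^ k) a) = 0 := by
  obtain ⟨s', rfl⟩ : ∃ s', s = s' + 1 + k := ⟨s - 1 - k, by omega⟩
  have h1 := f_pow hf hi ha hp (k := 0) k (by omega)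
  rw [zero_add] at h1
  have h2 := hf i hi a ha hp 0 (Nat.zero_le _)
  rw [Nat.cast_zero, zero_mul, zero_smul, pow_zero, Module.End.one_apply] at h2
  rw [pow_add, Module.End.mul_apply, h1, map_smul, pow_zero, Module.End.one_apply, pow_succ,
    Module.End.mul_apply, h2, map_zero, smul_zero]

/-- The operator made out of `f ^ r`. -/
def SS (L f : Module.End K V) (r : ℕ) : Module.End K V :=
  ∑ b ∈ range r, L ^ b * f ^ r * L ^ (r - 1 - b)

/-- The constant of this operator. -/
def sig (m r j : ℕ) : ℚ :=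
  ∑ b ∈ range r, if b < j ∧ j + (r - 1 - b) ≤ m then gam m (j - 1 - b) r else 0

lemma sig_pos {m r j : ℕ} (hr : 1 ≤ r) (hrm : r ≤ m) (hj : 1 ≤ j) (hjm : j ≤ m) :
    0 < sig m r j := by
  have hnn : ∀ b ∈ range r,
      0 ≤ if b < j ∧ j + (r - 1 - b) ≤ m then gam m (j - 1 - b) r else 0 := by
    intro b hb
    rw [mem_range] at hb
    split_ifs with h
    · exact (gam_pos (by omega)).le
    · exact le_rfl
  refine sum_pos' hnn ⟨j + r - 1 - m, mem_range.2 (by omega), ?_⟩
  rw [if_pos ⟨by omega, by omega⟩]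
  exact gam_pos (by omega)

lemma L_pow_zero {i : ℕ} {a : V} (hp : (L ^ (n - i + 1)) a = 0) {k : ℕ} (hk : n - i < k) :
    (L ^ k) a = 0 := by
  rw [show k = (k - (n - i + 1)) + (n - i + 1) by omega, pow_add, Module.End.mul_apply, hp,
    map_zero]

lemma SS_apply (hf : Val gr n L f) {i : ℕ} (hi : i ≤ n) {a : V} (ha : a ∈ gr i)
    (hp : (L ^ (n - i + 1)) a = 0) {r j : ℕ} (hr : 1 ≤ r) (hj : 1 ≤ j) :
    SS L f r ((L ^ j) a) = (sig (n - i) r j : K) • (L ^ (j - 1)) a := by
  rw [SS, LinearMap.sum_apply, sig, Rat.cast_sum, sum_smul]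
  refine sum_congr rfl fun b hb => ?_
  rw [mem_range] at hb
  rw [Module.End.mul_apply, Module.End.mul_apply, ← Module.End.mul_apply (L ^ (r - 1 - b)),
    ← pow_add]
  split_ifs with h
  · rw [show r - 1 - b + j = (j - 1 - b) + r by omega, f_pow hf hi ha hp r (by omega), map_smul,
      ← Module.End.mul_apply, ← pow_add, show b + (j - 1 - b) = j - 1 by omega]
  · rw [Rat.cast_zero, zero_smul]
    by_cases h1 : n - i < r - 1 - b + j
    · rw [L_pow_zero hp h1, map_zero, map_zero]
    · rw [f_pow_zero hf hi ha hp (k := r - 1 - b + j) (s := r) (by omega) (by omega), map_zero]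

/-- The constant of the power of this operator. -/
def kap (r c j : ℕ) : ℚ := ∏ t ∈ range c, sig (c + 2 * j) r (j + t + 1)

lemma kap_pos {r c j : ℕ} (hr : 1 ≤ r) (hrc : r ≤ c) : 0 < kap r c j := by
  apply prod_pos
  intro t ht
  rw [mem_range] at ht
  exact sig_pos hr (by omega) (by omega) (by omega)

lemma SS_pow (hf : Val gr n L f) {i : ℕ} (hi : i ≤ n) {a : V} (ha : a ∈ gr i)
    (hp : (L ^ (n - i + 1)) a = 0) {r j : ℕ} (hr : 1 ≤ r) : ∀ c,
    (SS L f r ^ c) ((L ^ (j + c)) a) =
      ((∏ t ∈ range c, sig (n - i) r (j + t + 1) : ℚ) : K) • (L ^ j) a := by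
  intro c
  induction c with
  | zero => simp
  | succ c ih =>
    rw [pow_succ, Module.End.mul_apply, SS_apply hf hi ha hp hr (by omega), map_smul,
      show j + (c + 1) - 1 = j + c by omega, ih, smul_smul, prod_range_succ]
    congr 1
    push_cast
    ring

variable {R : ℤ → Module.End K V → Prop}

lemma SS_mem (hR : OpAlg gr R) (hL : R 1 L) {r : ℕ} (hfr : R (-r) (f ^ r)) :
    R (-1) (SS L f r) := by
  refine hR.sum fun b hb => ?_
  rw [mem_range] at hb
  refine hR.cast (hR.mul (hR.mul (hR.pow hL b) hfr) (hR.pow hL (r - 1 - b))) ?_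
  omega

/-- A rational polynomial with prescribed values. -/
lemma exists_poly (κ : ℕ → ℚ) (hκ : ∀ j, κ j ≠ 0) (N : ℕ) :
    ∃ q : ℚ[X], ∀ j < N, (q * X).eval (κ j) = 1 := by
  set P : ℚ[X] := ∏ j ∈ range N, (1 - C (κ j)⁻¹ * X) with hP
  refine ⟨(1 - P).divX, fun j hj => ?_⟩
  have h0 : (1 - P).coeff 0 = 0 := by
    rw [coeff_sub, coeff_one_zero, coeff_zero_eq_eval_zero, hP, eval_prod]
    simp
  have h1 := divX_mul_X_add (1 - P)
  rw [h0, map_zero, add_zero] at h1
  have h2 : P.eval (κ j) = 0 := by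
    rw [hP, eval_prod]
    apply prod_eq_zero (mem_range.2 hj)
    simp [inv_mul_cancel₀ (hκ j)]
  rw [h1, eval_sub, eval_one, h2, sub_zero]

/-- **The inverses of the Lefschetz isomorphisms from one power of the lowering operator.** -/
theorem exists_inverse (hR : OpAlg gr R) (h : DirectSum.IsInternal gr)
    (hbd : ∀ i, 2 * n + 1 ≤ i → gr i = ⊥) (hL : R 1 L) (hHL : HardLef gr n L)
    (hf : Val gr n L f) {r : ℕ} (hr : 1 ≤ r) (hfr : R (-r) (f ^ r)) {c : ℕ} (hrc : r ≤ c)
    (hcn : c ≤ n) : ∃ Z, R (-c) Z ∧ ∀ x ∈ gr (n - c), Z ((L ^ c) x) = x := by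
  have hLh : IsHom gr 2 L := by simpa using hR.hom hL
  obtain ⟨q, hq⟩ := exists_poly (fun j => kap r c j) (fun j => (kap_pos hr hrc).ne') (n + 1)
  set S := SS L f r with hS
  have hSR : R (-1) S := SS_mem hR hL hfr
  set E := S ^ c * L ^ c with hE
  have hER : R 0 E := hR.cast (hR.mul (hR.pow hSR c) (hR.pow hL c)) (by ring)
  have hZR : R (-c) (ev E q * S ^ c) :=
    hR.cast (hR.mul (hR.ev hER q) (hR.pow hSR c)) (by ring)
  refine ⟨_, hZR, ?_⟩
  have key : ∀ x, (ev E q * S ^ c) ((L ^ c) (proj h (n - c) x)) = proj h (n - c) x := by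
    refine lef_induction' h hLh hbd hHL ?_ ?_
    · intro a b ha hb
      rw [map_add, map_add, map_add, ha, hb]
    · intro i hi a ha hp j
      have hmem : (L ^ j) a ∈ gr (i + 2 * j) := pow_L_mem hLh ha j
      by_cases hij : i + 2 * j = n - c
      · rw [hij] at hmem
        rw [proj_same h hmem]
        have hEx : E ((L ^ j) a) = ((kap r c j : ℚ) : K) • (L ^ j) a := by
          rw [hE, Module.End.mul_apply, ← Module.End.mul_apply (L ^ c), ← pow_add,
            Nat.add_comm c j, SS_pow hf hi ha hp hr c, kap,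
            show n - i = c + 2 * j by omega]
        have h1 : (ev E q * S ^ c) ((L ^ c) ((L ^ j) a)) = ev E (q * X) ((L ^ j) a) := by
          rw [map_mul, ev_X, hE]
          rfl
        rw [h1, ev_eigen hEx, eval_map_algebraMap]
        have h2 : aeval ((kap r c j : ℚ) : K) (q * X) =
            (((q * X).eval (kap r c j) : ℚ) : K) := by
          have := Polynomial.aeval_algebraMap_apply_eq_algebraMap_eval (A := K) (kap r c j) (q * X)
          simpa using this
        rw [h2, hq j (by omega), Rat.cast_one, one_smul]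
      · rw [proj_ne h hmem hij, map_zero, map_zero]
  intro x hx
  have := key x
  rwa [proj_same h hx] at this

end Pool.Agent.Q82.DL
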