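import Pool.Agent.Q82.DL.Str
import Pool.Agent.W537.OneCycleB
import Pool.Agent.H447R3.DegB

/-!
# The conjecture D for the cycles of one dimension on the square
-/

set_option autoImplicit false

open CategoryTheory AlgebraicGeometry Finset

universe u v

namespace Pool.Agent.Q82.DL

open Pool.Agent.H914 Pool.Agent.H447 Pool.Agent.W537 VarClass Obj WeilCohomology

variable {k : Type u} [Field k] {𝒱 : VarClass k} {ops : CycleOps 𝒱}
  {W : WeilCohomology.{u, v} ops} {X : 𝒱.Obj}

/-- The conjecture D in one codimension in terms of the operators. -/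
lemma nondeg {r : ℕ} (hr : r ≤ X.dim) (h : HomEqNumIn W (X.prod X) (X.dim + r))
    (u : Module.End W.K (W.H X)) (hu : ROp W X r u)
    (h0 : ∀ y, ROp W X (-r) y →
      LinearMap.trace W.K (W.H X) (par (W.isInternal X) * (u * y)) = 0) : u = 0 := by
  obtain ⟨Y, ⟨q, hq, z, hz, hY⟩ | ⟨hd, -⟩, rfl⟩ := hu
  · obtain rfl : q = X.dim + r := by omega
    rw [hY] at h0 ⊢
    have : W.cl _ z = 0 := by
      apply h z hz
      intro w hw
      rw [dim_prod, show X.dim + X.dim - (X.dim + r) = X.dim - r by omega] at hw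
      have h2 := h0 (W.corr (W.cl _ (ops.pull (swap X X) w)))
        ⟨fun W => W.corr (W.cl _ (ops.pull (swap X X) w)), Or.inl ⟨X.dim - r, by omega,
          ops.pull (swap X X) w, ops.pull_mem _ hw, fun _ => rfl⟩, rfl⟩
      rw [← mul_assoc, W.cl_pull, ← tr_mul_eq_trace (W.cl_mem hz),
        tr_mul_cl hz hw (by rw [dim_prod]; omega)] at h2
      exact_mod_cast h2
    rw [this, corr_zero]
  · omega

/-- The power `r` of the lowering operator is algebraic. -/
theorem lowering_pow {D : X.Cycles} (hD : X.IsCyc 1 D) (hHL : HardLefschetz W X D) {r : ℕ}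
    (hr : r ≤ X.dim) (h : HomEqNumIn W (X.prod X) (X.dim + r)) :
    ∃ f : Module.End W.K (W.H X), Val (W.gr X) X.dim (LL D W) f ∧ ROp W X (-r) (f ^ r) := by
  have hLh : IsHom (W.gr X) 2 (LL D W) := LL_isHom hD W
  obtain ⟨f, t, hf, hval⟩ := exists_sl2 (W.isInternal X) hLh W_hbd hHL
  exact ⟨f, hval, f_pow_mem rop_opAlg (W.isInternal X) rop_str (rop_mulLeft hD) t hf r
    (fun u hu h0 => nondeg hr h u hu h0)⟩

/-- **The inverses of the Lefschetz isomorphisms in the degrees up to `d`** from the conjecture D for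
the cycles of dimension `d` on `X × X`. -/
theorem inverts_of_homEqNumIn {D : X.Cycles} (hD : X.IsCyc 1 D) (hHL : HardLefschetz W X D)
    {d : ℕ} (hd : d < X.dim) (h : HomEqNumIn W (X.prod X) (2 * X.dim - d)) :
    ∀ i ≤ d, ∃ z, InvertsLefschetz W X D i z := by
  intro i hi
  rw [show 2 * X.dim - d = X.dim + (X.dim - d) by omega] at h
  obtain ⟨f, hval, hfr⟩ := lowering_pow hD hHL (Nat.sub_le _ _) h
  obtain ⟨Z, ⟨Y, ⟨q, hq, z, hz, hY⟩ | ⟨hd, -⟩, rfl⟩, hZ⟩ :=
    exists_inverse rop_opAlg (W.isInternal X) W_hbd (rop_mulLeft hD) hHL hval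
      (show 1 ≤ X.dim - d by omega) hfr (c := X.dim - i) (by omega) (by omega)
  · obtain rfl : q = i := by omega
    refine ⟨z, (inverts_iff hD W (by omega)).2 ⟨hz, fun a ha => ?_⟩⟩
    have := hZ a ha
    rwa [hY] at this
  · omega

end Pool.Agent.Q82.DL
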