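import Pool.Agent.Q82.DL.Main

/-!
# The conjecture D for the cycles of one dimension on the square: the other dimensions
-/

set_option autoImplicit false

open CategoryTheory AlgebraicGeometry Finset

universe u v

namespace Pool.Agent.Q82.DL

open Pool.Agent.H914 Pool.Agent.H447 Pool.Agent.W537 VarClass Obj WeilCohomology

section Alg

variable {K : Type*} [Field K] [CharZero K] {V : Type*} [AddCommGroup V] [Module K V]
  [Module.Finite K V]
variable {gr : ℕ → Submodule K V} {n : ℕ} {L : Module.End K V} {R : ℤ → Module.End K V → Prop}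

/-- The operator `u` of degree `s` is numerically trivial. -/
def NT (h : DirectSum.IsInternal gr) (R : ℤ → Module.End K V → Prop) (s : ℤ)
    (u : Module.End K V) : Prop :=
  R s u ∧ ∀ y, R (-s) y → LinearMap.trace K V (par h * (u * y)) = 0

/-- Products with numerically trivial operators. -/
lemma NT.sandwich (hR : OpAlg gr R) (h : DirectSum.IsInternal gr) {r : ℤ}
    (hN : ∀ u, R r u → (∀ y, R (-r) y → LinearMap.trace K V (par h * (u * y)) = 0) → u = 0)
    {s a b : ℤ} {u A B : Module.End K V} (hu : NT h R s u) (hA : R a A) (hB : R b B)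
    (hab : a + s + b = r) : A * u * B = 0 := by
  apply hN _ (hR.cast (hR.mul (hR.mul hA hu.1) hB) hab)
  intro y hy
  rw [mul_assoc, mul_assoc, str_comm h (hR.hom hA), mul_assoc]
  exact hu.2 _ (hR.cast (hR.mul (hR.mul hB hy) hA) (by omega))

/-- **Numerically trivial operators of higher degree vanish.** -/
theorem NT.eq_zero_high (hR : OpAlg gr R) (h : DirectSum.IsInternal gr)
    (hbd : ∀ i, 2 * n + 1 ≤ i → gr i = ⊥) (hL : R 1 L) (hHL : HardLef gr n L) {r : ℕ}
    (hN : ∀ u, R r u → (∀ y, R (-r) y → LinearMap.trace K V (par h * (u * y)) = 0) → u = 0)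
    (hθ : ∀ c, r ≤ c → c ≤ n → ∃ Z, R (-c) Z ∧ ∀ x ∈ gr (n - c), Z ((L ^ c) x) = x)
    {s : ℕ} (hrs : r ≤ s) (hr : 1 ≤ r) {u : Module.End K V} (hu : NT h R s u) : u = 0 := by
  have hLh : IsHom gr 2 L := by simpa using hR.hom hL
  have huh : IsHom gr ((2 * s : ℕ) : ℤ) u := by
    have := hR.hom hu.1
    rwa [show (2 * (s : ℤ)) = ((2 * s : ℕ) : ℤ) by push_cast; ring] at this
  have hmem : ∀ j, ∀ x ∈ gr j, u x ∈ gr (j + 2 * s) := fun j x hx => huh.apply_mem hx
  apply gr_ext h
  intro j x hx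
  rw [LinearMap.zero_apply]
  by_cases h1 : j + s ≤ n
  · obtain ⟨Z, hZ, hZx⟩ := hθ (n - j) (by omega) (by omega)
    have h2 := hu.sandwich hR h hN hR.one (hR.mul hZ (hR.pow hL (r + (n - j) - s)))
      (by push_cast; omega)
    rw [one_mul] at h2
    have h3 := LinearMap.congr_fun h2 ((L ^ (s - r)) x)
    rw [Module.End.mul_apply, Module.End.mul_apply, ← Module.End.mul_apply (L ^ _), ← pow_add,
      show r + (n - j) - s + (s - r) = n - j by omega, LinearMap.zero_apply,
      hZx x (by rwa [show n - (n - j) = j by omega])] at h3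
    exact h3
  · by_cases h3 : j + 2 * s ≤ 2 * n
    · obtain ⟨c, hc⟩ : ∃ c, j + 2 * s = n + c := ⟨j + 2 * s - n, by omega⟩
      obtain ⟨Z, hZ, hZx⟩ := hθ c (by omega) (by omega)
      have hy := hmem j x hx
      rw [hc] at hy
      obtain ⟨a, ha, ha'⟩ := (hHL (n - c) (by omega)).2 (u x)
        (by rwa [show 2 * n - (n - c) = n + c by omega])
      rw [show n - (n - c) = c by omega] at ha'
      have h2 := hu.sandwich hR h hN (hR.mul (hR.pow hL (r + c - s)) hZ) hR.one
        (by push_cast; omega)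
      rw [mul_one] at h2
      have h4 := LinearMap.congr_fun h2 x
      rw [Module.End.mul_apply, Module.End.mul_apply, LinearMap.zero_apply, ← ha', hZx a ha] at h4
      rw [← ha', show c = (s - r) + (r + c - s) by omega, pow_add, Module.End.mul_apply, h4,
        map_zero]
    · have := hmem j x hx
      rw [hbd _ (by omega)] at this
      exact (Submodule.mem_bot _).1 this

/-- **Numerically trivial operators of low degree vanish.** -/
theorem NT.eq_zero_low (hR : OpAlg gr R) (h : DirectSum.IsInternal gr)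
    (hbd : ∀ i, 2 * n + 1 ≤ i → gr i = ⊥) (hL : R 1 L) (hHL : HardLef gr n L) {r : ℕ}
    (hN : ∀ u, R r u → (∀ y, R (-r) y → LinearMap.trace K V (par h * (u * y)) = 0) → u = 0)
    {s : ℕ} (hrs : r ≤ s) {u : Module.End K V} (hu : NT h R (-s) u) : u = 0 := by
  have hLh : IsHom gr 2 L := by simpa using hR.hom hL
  have huh := hR.hom hu.1
  have hmem : ∀ j t : ℕ, j = t + 2 * s → ∀ x ∈ gr j, u x ∈ gr t := by
    intro j t hjt x hx
    have h1 := huh j x (by rwa [grZ_natCast])
    rwa [show (j : ℤ) + 2 * (-(s : ℤ)) = (t : ℤ) by omega, grZ_natCast] at h1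
  have hmem0 : ∀ j : ℕ, j < 2 * s → ∀ x ∈ gr j, u x = 0 := by
    intro j hj x hx
    have h1 := huh j x (by rwa [grZ_natCast])
    rw [grZ_of_neg (by omega)] at h1
    exact (Submodule.mem_bot _).1 h1
  have hinj : ∀ t a : ℕ, t + a ≤ n → ∀ y ∈ gr t, (L ^ a) y = 0 → y = 0 := by
    intro t a hta y hy h0
    refine (hHL t (by omega)).1 y hy ?_
    rw [show n - t = (n - t - a) + a by omega, pow_add, Module.End.mul_apply, h0, map_zero]
  apply gr_ext h
  intro j x hx
  rw [LinearMap.zero_apply]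
  by_cases h0 : j < 2 * s
  · exact hmem0 j h0 x hx
  obtain ⟨t, ht⟩ : ∃ t, j = t + 2 * s := ⟨j - 2 * s, by omega⟩
  have hy := hmem j t ht x hx
  by_cases h1 : j ≤ n
  · have h2 := hu.sandwich hR h hN (hR.pow hL (s + r)) hR.one (by push_cast; omega)
    rw [mul_one] at h2
    have h3 := LinearMap.congr_fun h2 x
    rw [Module.End.mul_apply, LinearMap.zero_apply] at h3
    exact hinj t (s + r) (by omega) _ hy h3
  · by_cases h2 : j ≤ 2 * n
    · obtain ⟨w, hw⟩ : ∃ w, j = n + w := ⟨j - n, by omega⟩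
      obtain ⟨x', hx', hxx⟩ := (hHL (n - w) (by omega)).2 x
        (by rwa [show 2 * n - (n - w) = j by omega])
      rw [show n - (n - w) = w by omega] at hxx
      by_cases h3 : w ≤ s + r
      · have h4 := hu.sandwich hR h hN (hR.pow hL (s + r - w)) (hR.pow hL w)
          (by push_cast; omega)
        have h5 := LinearMap.congr_fun h4 x'
        rw [Module.End.mul_apply, Module.End.mul_apply, hxx, LinearMap.zero_apply] at h5
        exact hinj t (s + r - w) (by omega) _ hy h5
      · have h4 := hu.sandwich hR h hN hR.one (hR.pow hL (s + r)) (by push_cast; omega)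
        have h5 := LinearMap.congr_fun h4 ((L ^ (w - (s + r))) x')
        rw [one_mul, Module.End.mul_apply, ← Module.End.mul_apply (L ^ (s + r)), ← pow_add,
          show s + r + (w - (s + r)) = w by omega, hxx, LinearMap.zero_apply] at h5
        exact h5
    · rw [hbd j (by omega)] at hx
      rw [(Submodule.mem_bot _).1 hx, map_zero]

end Alg

variable {k : Type u} [Field k] {𝒱 : VarClass k} {ops : CycleOps 𝒱}
  {W : WeilCohomology.{u, v} ops} {X : 𝒱.Obj}

/-- **The conjecture D for the cycles of dimension `d` on `X × X`** implies the conjecture D for the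
cycles of dimension at most `d` and for those of codimension at most `d`. -/
theorem homEqNumIn_range {D : X.Cycles} (hD : X.IsCyc 1 D) (hHL : HardLefschetz W X D)
    {d : ℕ} (hd : d < X.dim) (h : HomEqNumIn W (X.prod X) (2 * X.dim - d)) {q : ℕ}
    (hq : q ≤ 2 * X.dim) (hq' : q ≤ d ∨ 2 * X.dim - d ≤ q) : HomEqNumIn W (X.prod X) q := by
  rw [show 2 * X.dim - d = X.dim + (X.dim - d) by omega] at h
  obtain ⟨f, hval, hfr⟩ := lowering_pow hD hHL (Nat.sub_le _ _) h
  have hθ : ∀ c, X.dim - d ≤ c → c ≤ X.dim → ∃ Z, ROp W X (-c) Z ∧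
      ∀ x ∈ W.gr X (X.dim - c), Z ((LL D W ^ c) x) = x := fun c hc1 hc2 =>
    exists_inverse rop_opAlg (W.isInternal X) W_hbd (rop_mulLeft hD) hHL hval
      (show 1 ≤ X.dim - d by omega) hfr hc1 hc2
  have hN := nondeg (Nat.sub_le _ _) h
  intro z hz hnum
  rw [dim_prod] at hnum
  have hNT : NT (W.isInternal X) (ROp W X) ((q : ℤ) - X.dim) (W.corr (W.cl _ z)) := by
    refine ⟨⟨fun W => W.corr (W.cl _ z), Or.inl ⟨q, by omega, z, hz, fun _ => rfl⟩, rfl⟩, ?_⟩
    rintro y ⟨Y, ⟨r, hr, w, hw, hY⟩ | ⟨hd, -⟩, rfl⟩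
    · obtain rfl : r = X.dim + X.dim - q := by omega
      rw [hY, str_eq_deg (by omega) hz hw, hnum _ (ops.pull_mem _ hw), Rat.cast_zero]
    · omega
  have key : W.corr (W.cl _ z) = 0 := by
    rcases hq' with h1 | h1
    · rw [show (q : ℤ) - X.dim = -((X.dim - q : ℕ) : ℤ) by omega] at hNT
      exact hNT.eq_zero_low rop_opAlg (W.isInternal X) W_hbd (rop_mulLeft hD) hHL hN (by omega)
    · rw [show (q : ℤ) - X.dim = ((q - X.dim : ℕ) : ℤ) by omega] at hNT
      exact hNT.eq_zero_high rop_opAlg (W.isInternal X) W_hbd (rop_mulLeft hD) hHL hN hθ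
        (by omega) (by omega)
  exact corr_inj key

/-- **The Kunneth projectors** in the degrees up to `d` and from `2 n - d` on. -/
theorem projectors_of_homEqNumIn {D : X.Cycles} (hD : X.IsCyc 1 D) (hHL : HardLefschetz W X D)
    {d : ℕ} (hd : d < X.dim) (h : HomEqNumIn W (X.prod X) (2 * X.dim - d)) {i : ℕ}
    (hi : i ≤ d ∨ 2 * X.dim - d ≤ i) :
    ∃ P, (X.prod X).IsCyc X.dim P ∧ InducesProjector W X i P := by
  obtain ⟨Λ, hΛ⟩ := oneCycle hD hd.le W (inverts_of_homEqNumIn hD hHL hd h)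
  have h3 := ((hΛ W).out 0 2).1 (fun _ _ => rfl)
  have hT : ∀ i ≤ d, IsInv (W.gr X) X.dim (LL D W) (X.dim - i) (W.corr (W.cl _ (Λ i))) := by
    intro i hi
    obtain ⟨h4, h5⟩ := h3 i hi
    refine ⟨((inverts_iff hD W (by omega)).1 h4).2, fun j hj a ha => h5 j (by omega) a ha⟩
  have hTR : ∀ i ≤ d, ROp W X (-((X.dim - i : ℕ) : ℤ)) (W.corr (W.cl _ (Λ i))) := by
    intro i hi
    exact ⟨fun W => W.corr (W.cl _ (Λ i)), Or.inl ⟨i, by omega, Λ i, (h3 i hi).1.1,
      fun _ => rfl⟩, rfl⟩
  have fin : ∀ T, ROp W X 0 T → T = proj (W.isInternal X) i →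
      ∃ P, (X.prod X).IsCyc X.dim P ∧ InducesProjector W X i P := by
    rintro T ⟨Y, ⟨q, hq, z, hz, hY⟩ | ⟨hd, -⟩, rfl⟩ hT
    · obtain rfl : q = X.dim := by omega
      refine ⟨z, hz, ?_⟩
      rw [InducesProjector, ← hY, hT]
      intro j a ha
      split_ifs with hj
      · subst hj; exact proj_same _ ha
      · exact proj_ne _ ha hj
    · omega
  by_cases h1 : i ≤ d
  · refine fin _ (rop_opAlg.cast (rop_opAlg.mul (hTR i h1)
      (rop_opAlg.pow (rop_mulLeft hD) (X.dim - i))) (by ring)) ?_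
    rw [isInv_mul_pow hD W (by omega) (hT i h1), show X.dim - (X.dim - i) = i by omega]
  · by_cases h2 : i ≤ 2 * X.dim
    · refine fin _ (rop_opAlg.cast (rop_opAlg.mul
        (rop_opAlg.pow (rop_mulLeft hD) (X.dim - (2 * X.dim - i)))
        (hTR (2 * X.dim - i) (by omega))) (by ring)) ?_
      rw [pow_mul_isInv hD W (by omega) (hT (2 * X.dim - i) (by omega)),
        show X.dim + (X.dim - (2 * X.dim - i)) = i by omega]
    · refine fin 0 (rop_opAlg.zero 0) ?_
      apply gr_ext (W.isInternal X)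
      intro j a ha
      rw [LinearMap.zero_apply]
      by_cases hj : j = i
      · subst hj
        rw [W_hbd j (by omega)] at ha
        rw [(Submodule.mem_bot _).1 ha, map_zero]
      · rw [proj_ne _ ha hj]

end Pool.Agent.Q82.DL
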