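import Pool.Agent.Q82.DL.Range
import Pool.Agent.H914R2.GBasic
import Pool.Agent.H447R3.AoC

/-!
# The conjecture D for the cycles of one dimension on the square: the variety itself
-/

set_option autoImplicit false

open CategoryTheory AlgebraicGeometry Finset

universe u v

namespace Pool.Agent.Q82.DL

open Pool.Agent.H914 Pool.Agent.H447 Pool.Agent.W537 VarClass Obj WeilCohomology

variable {k : Type u} [Field k] {𝒱 : VarClass k} {ops : CycleOps 𝒱}
  {W : WeilCohomology.{u, v} ops} {X : 𝒱.Obj}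

/-- The conjecture D for `X` in high codimension. -/
theorem self_high {D : X.Cycles} (hD : X.IsCyc 1 D) (hHL : HardLefschetz W X D)
    {d : ℕ} (hd : d < X.dim) (h : HomEqNumIn W (X.prod X) (2 * X.dim - d)) {q : ℕ}
    (hq : q ≤ X.dim) (hq' : X.dim - d ≤ q) : HomEqNumIn W X q := by
  rw [show 2 * X.dim - d = X.dim + (X.dim - d) by omega] at h
  obtain ⟨f, hval, hfr⟩ := lowering_pow hD hHL (Nat.sub_le _ _) h
  have hθ : ∀ c, X.dim - d ≤ c → c ≤ X.dim → ∃ Z, ROp W X (-c) Z ∧
      ∀ x ∈ W.gr X (X.dim - c), Z ((LL D W ^ c) x) = x := fun c hc1 hc2 =>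
    exists_inverse rop_opAlg (W.isInternal X) W_hbd (rop_mulLeft hD) hHL hval
      (show 1 ≤ X.dim - d by omega) hfr hc1 hc2
  have hN := nondeg (Nat.sub_le _ _) h
  intro z hz hnum
  have hNT : NT (W.isInternal X) (ROp W X) (q : ℤ) (LinearMap.mulLeft W.K (W.cl X z)) := by
    refine ⟨⟨_, Realized.mulLeft hz, rfl⟩, ?_⟩
    rintro y ⟨Y, ⟨r, hr, w, hw, hY⟩ | ⟨hd, -⟩, rfl⟩
    · obtain rfl : r = X.dim - q := by omega
      rw [hY, ← corr_snd _ _ (W.cl_mem hz), trace_par_corr, map_mul, ← W.map_comp,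
        show diag X ≫ snd X X = 𝟙 X from Obj.lift_snd _ _, W.map_id, ← W.cl_pull,
        tr_mul_cl hz (ops.pull_mem _ hw) (by omega), hnum _ (ops.pull_mem _ hw), Rat.cast_zero]
    · omega
  have key := hNT.eq_zero_high rop_opAlg (W.isInternal X) W_hbd (rop_mulLeft hD) hHL hN hθ
    hq' (by omega)
  have := LinearMap.congr_fun key 1
  rwa [LinearMap.mulLeft_apply, mul_one, LinearMap.zero_apply] at this

/-- **The conjecture D for `X`** in the codimensions at most `d` and at least `n - d`. -/
theorem self_range {D : X.Cycles} (hD : X.IsCyc 1 D) (hHL : HardLefschetz W X D)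
    {d : ℕ} (hd : d < X.dim) (h : HomEqNumIn W (X.prod X) (2 * X.dim - d)) {q : ℕ}
    (hq : q ≤ X.dim) (hq' : q ≤ d ∨ X.dim - d ≤ q) : HomEqNumIn W X q := by
  by_cases h1 : X.dim - d ≤ q
  · exact self_high hD hHL hd h hq h1
  · have h2 : q ≤ d := by omega
    intro z hz hnum
    have hcyc : X.IsCyc (X.dim - d) (divPow ops D (X.dim - d - q) z) := by
      have := divPow_mem (ops := ops) hD (X.dim - d - q) hz
      rwa [show q + (X.dim - d - q) = X.dim - d by omega] at this
    have h3 : W.cl X (divPow ops D (X.dim - d - q) z) = 0 := by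
      refine self_high hD hHL hd h (Nat.sub_le _ _) le_rfl _ hcyc fun w hw => ?_
      rw [show X.dim - (X.dim - d) = d by omega] at hw
      have hcyc' : X.IsCyc (X.dim - q) (divPow ops D (X.dim - d - q) w) := by
        have := divPow_mem (ops := ops) hD (X.dim - d - q) hw
        rwa [show d + (X.dim - d - q) = X.dim - q by omega] at this
      have h4 := tr_mul_cl (W := W) hz hcyc' (by omega)
      rw [hnum _ hcyc', Rat.cast_zero, cl_divPow, LinearMap.pow_mulLeft,
        LinearMap.mulLeft_apply] at h4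
      have h5 := tr_mul_cl (W := W) hcyc hw (by omega)
      rw [cl_divPow, LinearMap.pow_mulLeft, LinearMap.mulLeft_apply] at h5
      have hc : W.cl X z * (W.cl X D ^ (X.dim - d - q) * W.cl X w) =
          W.cl X D ^ (X.dim - d - q) * W.cl X z * W.cl X w := by
        rw [← mul_assoc, W.even_comm (W.cl_mem hz)]
      rw [hc, h5] at h4
      exact_mod_cast h4
    rw [cl_divPow] at h3
    refine (hHL (2 * q) (by omega)).1 _ (W.cl_mem hz) ?_
    rw [show X.dim - 2 * q = (d - q) + (X.dim - d - q) by omega, pow_add, Module.End.mul_apply,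
      h3, map_zero]

end Pool.Agent.Q82.DL
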